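import Mathlib
import Pool.Agent.N743.Alg
import Pool.Agent.Run7.h168.Z3.Inc
import Pool.Agent.R352.Q.Three

/-!
# The algebraic approximations of `ζ(3)` and of incomplete zeta values at all scales

Let `w ≥ 2`, `ω = exp (2 π i / w)`, and for `x > 0` let `R_w(x)` be the real part of
`(-1)^w / w! * ∫ (∑_j ω^j log t_j)^w exp (-∑_j t_j) dt`, the integral being over
`(0, ∞)^w \ (0, x)^w`; the same integral over the whole octant `(0, ∞)^w` is `ζ(w)`.  For `w = 3`,
`R_3(x) = 1/12 * ∫ log(t_1 t_2 / t_3²)³ exp (-t_1 - t_2 - t_3) dt`, the integral being over the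
points of the positive octant with `max t_i ≥ x`.

A number `y` is near at the scale `X` (with the parameters `d`, `θ`) if there is a nonzero integer
polynomial `P` of degree at most `d` with coefficients at most `X ^ θ` in absolute value and
`|P(y)| ≤ 1 / X`.  We take a finite set of the numbers `e^s ζ(w)`, `e^s R_w(x)` (`s` rational, `x`
positive rational) which are not `0`, a degree `d`, a number `M > 1` and a sufficiently small `θ`.

* At every large scale at most one of the numbers is near.
* If one of the numbers is algebraic of degree at most `d`, then it is near at all large scales and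
  the others are near at no large scale.
* Otherwise every large scale `X` at which one of the numbers is near is followed by a scale `Z ≥ X`
  such that between `X` and `Z` no other of the numbers is near and between `Z` and `Z ^ M` none is
  near; and there are arbitrarily large such `Z`.

So one of the numbers (for instance `ζ(3)` or `R_3(1)`) is algebraic of degree at most `d` if and
only if at every large scale one of them is near.

The proof combines a measure of algebraic independence for `e` and the iterated exponential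
integrals (`Pool.Agent.N743.SS`), of which `ζ(w) - R_w(x)` is a polynomial, with the combinatorial
engine `Pool.Agent.N743.engine`.
-/

set_option autoImplicit false

namespace Pool.Agent.Results.MP_48b3e2_nt.AlgebraicScaleDichotomy

open MeasureTheory Pool.Agent.N743

/-- `ζ(w)` -/
noncomputable def zeta (w : ℕ) : ℝ := ∑' k : ℕ, 1 / ((k : ℝ) + 1) ^ w

/-- `ω = exp (2 π i / w)` -/
noncomputable def root (w : ℕ) : ℂ := Complex.exp (2 * Real.pi * Complex.I / w)

/-- `(∑_j ω^j log t_j)^w exp (-∑_j t_j)` -/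
noncomputable def integrand (w : ℕ) (t : Fin w → ℝ) : ℂ :=
  (∑ j : Fin w, root w ^ (j : ℕ) * (Real.log (t j) : ℂ)) ^ w * ((Real.exp (-∑ j, t j) : ℝ) : ℂ)

/-- the open octant -/
def octant (w : ℕ) : Set (Fin w → ℝ) := {t | ∀ j, 0 < t j}

/-- `(0, ∞)^w \ (0, x)^w` -/
def rest (w : ℕ) (x : ℝ) : Set (Fin w → ℝ) := {t | (∀ j, 0 < t j) ∧ ∃ j, x ≤ t j}

/-- the normalized integral over `D` -/
noncomputable def integral (w : ℕ) (D : Set (Fin w → ℝ)) : ℂ :=
  (-1) ^ w / w.factorial * ∫ t in D, integrand w t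

/-- the number `R_w(x)` -/
noncomputable def R (w : ℕ) (x : ℚ) : ℝ := (integral w (rest w x)).re

/-- the numbers `ζ(w)` (for `none`) and `R_w(x)` -/
noncomputable def num (w : ℕ) (o : Option ℚ) : ℝ := o.elim (zeta w) (R w)

lemma octant_eq (w : ℕ) : octant w = Pool.Agent.R352.Q.cube w (Set.Ioi 0) := by
  ext t
  simp [octant, Pool.Agent.R352.Q.cube]

lemma rest_eq (w : ℕ) (x : ℝ) :
    rest w x = Pool.Agent.R352.Q.cube w (Set.Ioi 0) \ Pool.Agent.R352.Q.cube w (Set.Ioo 0 x) := by
  ext t
  simp only [rest, Pool.Agent.R352.Q.cube, Set.mem_sdiff, Set.mem_univ_pi, Set.mem_Ioi, Set.mem_Ioo]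
  constructor
  · rintro ⟨h1, j, h2⟩
    exact ⟨h1, fun h => absurd (h j).2 (not_lt.2 h2)⟩
  · rintro ⟨h1, h2⟩
    push Not at h2
    obtain ⟨j, hj⟩ := h2
    exact ⟨h1, j, hj (h1 j)⟩

lemma integral_octant {w : ℕ} (hw : 2 ≤ w) : integral w (octant w) = (zeta w : ℂ) := by
  rw [octant_eq]
  exact Pool.Agent.R352.Q.NI_full hw

lemma integral_rest {w : ℕ} (hw : 2 ≤ w) {x : ℚ} (hx : 0 < x) :
    integral w (rest w x) = (Pool.Agent.R352.Q.Rk w x : ℂ) := by
  have hx' : (0 : ℝ) < x := by exact_mod_cast hx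
  have h : integral w (rest w x) = Pool.Agent.R352.Q.NI w
      (Pool.Agent.R352.Q.cube w (Set.Ioi 0) \ Pool.Agent.R352.Q.cube w (Set.Ioo 0 x)) := by
    rw [integral, rest_eq]
    rfl
  rw [h, Pool.Agent.R352.Q.NI_diff, Pool.Agent.R352.Q.NI_full hw, Pool.Agent.R352.Q.NI_box hw hx',
    Pool.Agent.R352.Q.Rk]
  push_cast
  rfl

lemma R_eq {w : ℕ} (hw : 2 ≤ w) {x : ℚ} (hx : 0 < x) : R w x = Pool.Agent.R352.Q.Rk w x := by
  rw [R, integral_rest hw hx, Complex.ofReal_re]

lemma num_eq {w : ℕ} (hw : 2 ≤ w) (o : Option ℚ) (ho : ∀ x, o = some x → 0 < x) :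
    num w o = Run7.h168.Z3.zi w o := by
  cases o with
  | none => rfl
  | some x => exact R_eq hw (ho x rfl)

lemma three {x : ℚ} (hx : 0 < x) : R 3 x =
    1 / 12 * ∫ t in rest 3 x, Real.log (t 0 * t 1 / t 2 ^ 2) ^ 3 * Real.exp (-(t 0 + t 1 + t 2)) := by
  have hx' : (0 : ℝ) < x := by exact_mod_cast hx
  rw [rest_eq, Pool.Agent.R352.Q.three_rest hx', R_eq (by norm_num) hx]
  ring

/-- **(1)** For `w ≥ 2` and rational `x > 0` the normalized integral is `ζ(w)` for the whole octant
and the real number `R_w(x)` for `(0, ∞)^w \ (0, x)^w`; a formula for `R_3(x)`.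

**(2) The algebraic scale dichotomy.** Let `w ≥ 2` and let `T` be a finite set of pairs `(o, s)`, where
`s` is rational and `o` is either `none`, standing for `ζ(w)`, or a positive rational number `x`, standing
for `R_w(x)`; suppose that the numbers `ζ(w)`, `R_w(x)` which occur are not `0`.  For all `d` and all
`M > 1` there is `θ₀ > 0` such that for `0 < θ ≤ θ₀` the scale dichotomy holds for the numbers
`e^s ζ(w)`, `e^s R_w(x)` that belong to the elements of `T`: a number is good if it is algebraic of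
degree at most `d`, and near at the scale `X` if some nonzero integer polynomial of degree at most `d`
with coefficients at most `X ^ θ` has a value at most `1 / X` at the number. -/
theorem result :
    ((∀ w : ℕ, 2 ≤ w → integral w (octant w) = (zeta w : ℂ) ∧
        ∀ x : ℚ, 0 < x → integral w (rest w x) = (R w x : ℂ)) ∧
      ∀ x : ℚ, 0 < x → R 3 x = 1 / 12 *
        ∫ t in rest 3 x, Real.log (t 0 * t 1 / t 2 ^ 2) ^ 3 * Real.exp (-(t 0 + t 1 + t 2))) ∧
    (∀ w : ℕ, 2 ≤ w → ∀ T : Finset (Option ℚ × ℚ), (∀ p ∈ T, ∀ x, p.1 = some x → 0 < x) →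
      (∀ p ∈ T, num w p.1 ≠ 0) → ∀ (d : ℕ) (M : ℝ), 1 < M → ∃ θ₀ : ℝ, 0 < θ₀ ∧
        ∀ θ : ℝ, 0 < θ → θ ≤ θ₀ →
          Dichotomy (fun p : T => AlgDeg d (Real.exp p.1.2 * num w p.1.1))
            (fun X p => AlgNear d θ X (Real.exp p.1.2 * num w p.1.1)) M) := by
  refine ⟨⟨fun w hw => ⟨integral_octant hw, fun x hx => ?_⟩, fun x hx => three hx⟩, ?_⟩
  · have h := integral_rest hw hx
    rw [R, h, Complex.ofReal_re]
  · intro w hw T hT hne d M hM
    refine dichotomy_alg (fun p : T => Real.exp p.1.2 * num w p.1.1) (fun p q hpq => ?_) d M hM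
    have hp := hT p.1 p.2
    have hq := hT q.1 q.2
    rw [num_eq hw _ hp, num_eq hw _ hq]
    refine Run7.h168.Z3.joint_zi w hw p.1.1 q.1.1 hp hq p.1.2 q.1.2 (fun h => ⟨fun hs => ?_, ?_⟩)
    · exact hpq (Subtype.ext (Prod.ext h hs))
    · have := hne p.1 p.2
      rwa [num_eq hw _ hp] at this

end Pool.Agent.Results.MP_48b3e2_nt.AlgebraicScaleDichotomy
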