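import Mathlib
import Pool.Agent.Run7.h360.CF.Pair
import Pool.Agent.Run7.h168.Z3.Inc
import Pool.Agent.R352.Q.Three

/-!
# The continued fractions of `ζ(3)` and of incomplete zeta values

Let `w ≥ 2`, `ω = exp (2 π i / w)`, and for `x > 0` let `R_w(x)` be the real part of
`(-1)^w / w! * ∫ (∑_j ω^j log t_j)^w exp (-∑_j t_j) dt`, the integral being over
`(0, ∞)^w \ (0, x)^w`; the same integral over the whole octant `(0, ∞)^w` is `ζ(w)`.  For `w = 3`,
`R_3(x) = 1/12 * ∫ log(t_1 t_2 / t_3²)³ exp (-t_1 - t_2 - t_3) dt`, the integral being over the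
points of the positive octant with `max t_i ≥ x`.

Let `y = [a_0; a_1, a_2, …]` be the regular continued fraction of a real number, `q_i` the denominators
of its convergents.  The places `u+1, …, v` are *copied at the price `N`* if, with the exception of
places up to some `s` with `q_s ≤ e^N q_u`, the partial quotients `a_i` at these places are equal to
the partial quotients `a_{i-d}` for one `d > 0` (`Copied`; the copied part may begin at any earlier
place and may overlap its copy, so that all periodic stretches with a short period are included).  A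
number `y` is *simple up to the scale `X` with the parameters `r, K, N`* (`Simple`) if

* after the removal of at most `K` places all stretches of the partial quotients `a_{i+1}` with
  `q_i ≤ e^X` are copied at the price `N`; or
* for some base `b`, after the removal of at most `K` places all stretches `u+1, …, v ≤ L` of the
  digits, `X ≤ L log b`, are terms of sequences whose power series satisfy modulo `t^(v+1)` an algebraic
  equation of degree `≤ r` with coefficients of degree `≤ k + r u`, `(k+1) log b ≤ N`; or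
* the fractional part `z` of `y` satisfies `|P(z)| ≤ e^(-X)` for an integer polynomial `P ≠ 0` of degree
  `≤ r` with coefficients `≤ e^N`.

So `K` is the number of the breaks, `N` the price of the description and `X` the length.  We prove: for
two different numbers `y`, `y'` of a finite family of numbers `e^s ζ(w)`, `e^s R_w(x)` (`s` rational,
`x` positive rational) which are simple up to `X` with `r, K, N` and with `r, K', N'`

`X ≤ A^(K+K'+1) (N + N' + 1)`,

`A` depending only on `r` and on the family.  So at every scale at most one of the numbers `ζ(3)` and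
`R_3(x)`, `x` in a finite set of positive rational numbers, has a simple continued fraction (for
example one which consists of few periodic stretches with short periods, or of few copies of earlier
parts), or simple digits in some base; and if one of them is algebraic, then the others have
complicated continued fractions at all scales.

Proof.  A copy at the places `s+1, …, v` of the continued fraction gives the quadratic polynomial
`(q_{r-1} X - p_{r-1}) (q_s X - p_s) - (q_{s-1} X - p_{s-1}) (q_r X - p_r)`, whose value at `y` is, up to the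
sign, not changed by a common letter and so at most `2 / q_v`; its leading coefficient is not zero.  The
breaks of both descriptions divide the interval `[0, X]` of scales into few intervals, and on each of
them both numbers have integer polynomials with small coefficients and a very small value
(`Pool.Agent.Run7.h360.CF`).  The numbers have a joint measure (helper168, `Run7.h168.Z3`), which comes
from the measure of algebraic independence of `e` and the iterated exponential integrals
(`Pool.Agent.N743.SS`).  For digits and for algebraic approximations the result is contained in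
`LinearFormsPieceByPiece` (MP_363d4d_nt) and `AlgebraicScaleDichotomy` (helper168) in other forms; the
continued fractions, and the comparison of a continued fraction with digits, are new.
-/

set_option autoImplicit false

namespace Pool.Agent.Results.MP_48b3e2_nt.ContinuedFractions

open MeasureTheory Polynomial

/-- `ζ(w)` -/
noncomputable def zeta (w : ℕ) : ℝ := ∑' k : ℕ, 1 / ((k : ℝ) + 1) ^ w

/-- `ω = exp (2 π i / w)` -/
noncomputable def root (w : ℕ) : ℂ := Complex.exp (2 * Real.pi * Complex.I / w)

/-- `(∑_j ω^j log t_j)^w exp (-∑_j t_j)` -/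
noncomputable def integrand (w : ℕ) (t : Fin w → ℝ) : ℂ :=
  (∑ j : Fin w, root w ^ (j : ℕ) * (Real.log (t j) : ℂ)) ^ w * ((Real.exp (-∑ j, t j) : ℝ) : ℂ)

/-- the open octant -/
def octant (w : ℕ) : Set (Fin w → ℝ) := {t | ∀ j, 0 < t j}

/-- `(0, ∞)^w \ (0, x)^w` -/
def rest (w : ℕ) (x : ℝ) : Set (Fin w → ℝ) := {t | (∀ j, 0 < t j) ∧ ∃ j, x ≤ t j}

/-- the normalized integral over `D` -/
noncomputable def integral (w : ℕ) (D : Set (Fin w → ℝ)) : ℂ :=
  (-1) ^ w / w.factorial * ∫ t in D, integrand w t

/-- the number `R_w(x)` -/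
noncomputable def R (w : ℕ) (x : ℚ) : ℝ := (integral w (rest w x)).re

/-- the numbers `ζ(w)` (for `none`) and `R_w(x)` -/
noncomputable def num (w : ℕ) (o : Option ℚ) : ℝ := o.elim (zeta w) (R w)

/-- the partial quotient `a_{i+1}` of `y = [a_0; a_1, a_2, …]` (`none` if the continued fraction has ended) -/
noncomputable def letter (y : ℝ) (i : ℕ) : Option ℝ := (GenContFract.of y).partDens.get? i

/-- the denominator `q_i` of `[a_0; a_1, …, a_i]` (the last denominator if the continued fraction has
ended) -/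
noncomputable def den (y : ℝ) (i : ℕ) : ℝ := (GenContFract.of y).dens i

/-- the places `u+1, …, v` are copied at the price `N`: up to the place `s`, `q_s ≤ e^N q_u`, they are
arbitrary, and from then on the partial quotients are equal to those `s - r` places before -/
def Copied (y : ℝ) (N : ℝ) (u v : ℕ) : Prop :=
  ∃ r s, r < s ∧ den y s ≤ Real.exp N * den y u ∧ ∀ i, s ≤ i → i < v → letter y i = letter y (i - (s - r))

/-- the partial quotients `a_{i+1}` with `q_i ≤ e^X` are copied at the price `N` on all stretches which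
contain none of at most `K` places -/
def Pieces (y : ℝ) (K : ℕ) (N X : ℝ) : Prop :=
  ∃ T : Finset ℕ, T.card ≤ K ∧ ∀ u v, u < v → den y (v - 1) ≤ Real.exp X → (∀ t ∈ T, t ≤ u ∨ v < t) →
    Copied y N u v

/-- the `i`-th digit of `y` after the point in base `b` -/
noncomputable def digit (b : ℕ) (y : ℝ) (i : ℕ) : ℤ := ⌊y * (b : ℝ) ^ i⌋ % (b : ℤ)

/-- the polynomial `s_1 X + s_2 X^2 + ⋯ + s_L X^L` -/
noncomputable def seqPoly (s : ℕ → ℤ) (L : ℕ) : ℚ[X] := ∑ l ∈ Finset.Icc 1 L, C (s l : ℚ) * X ^ l

/-- there is a nonzero polynomial `P(X, Y)` over `ℚ` of degree `≤ r` in `Y` and `≤ k` in `X` such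
that `P(X, S(X))` is divisible by `X^(L+1)`, where `S` is the polynomial of the first `L` terms
of `s` -/
def AlgRelation (s : ℕ → ℤ) (r L k : ℕ) : Prop :=
  ∃ P : ℚ[X][X], P ≠ 0 ∧ P.natDegree ≤ r ∧ (∀ j, (P.coeff j).natDegree ≤ k) ∧
    X ^ (L + 1) ∣ P.eval (seqPoly s L)

/-- the digits of `y` at the places `u+1, …, v` are the terms at these places of a sequence `s` of base `b`
digits, and the first `v` terms of `s` satisfy an algebraic relation of degree `≤ r` with coefficients of
degree `≤ k + r u` -/
def Described (b : ℕ) (y : ℝ) (r k u v : ℕ) : Prop :=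
  ∃ s : ℕ → ℤ, (∀ l, 0 ≤ s l ∧ s l < b) ∧ (∀ l, u < l → l ≤ v → s l = digit b y l) ∧
    AlgRelation s r v (k + r * u)

/-- the first `L` digits of `y` are described on all stretches which contain none of at most `K` places -/
def PieceByPiece (b : ℕ) (y : ℝ) (r K L k : ℕ) : Prop :=
  ∃ T : Finset ℕ, T.card ≤ K ∧
    ∀ u v, u ≤ v → v ≤ L → (∀ t ∈ T, t ≤ u ∨ v < t) → Described b y r k u v

/-- the fractional part of `y` almost satisfies an algebraic equation -/
def NearAlg (r : ℕ) (N X y : ℝ) : Prop :=
  ∃ P : ℤ[X], P ≠ 0 ∧ P.natDegree ≤ r ∧ (∀ i, |((P.coeff i : ℤ) : ℝ)| ≤ Real.exp N) ∧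
    |(aeval (Int.fract y) P : ℝ)| ≤ Real.exp (-X)

/-- `y` is simple up to the scale `X`, with `K` breaks and at the price `N` -/
def Simple (r K : ℕ) (N X y : ℝ) : Prop :=
  Pieces y K N X ∨
    (∃ b k L : ℕ, 2 ≤ b ∧ (k + 1) * Real.log b ≤ N ∧ X ≤ L * Real.log b ∧ PieceByPiece b y r K L k) ∨
    NearAlg r N X y

lemma octant_eq (w : ℕ) : octant w = Pool.Agent.R352.Q.cube w (Set.Ioi 0) := by
  ext t
  simp [octant, Pool.Agent.R352.Q.cube]

lemma rest_eq (w : ℕ) (x : ℝ) :
    rest w x = Pool.Agent.R352.Q.cube w (Set.Ioi 0) \ Pool.Agent.R352.Q.cube w (Set.Ioo 0 x) := by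
  ext t
  simp only [rest, Pool.Agent.R352.Q.cube, Set.mem_sdiff, Set.mem_univ_pi, Set.mem_Ioi, Set.mem_Ioo]
  constructor
  · rintro ⟨h1, j, h2⟩
    exact ⟨h1, fun h => absurd (h j).2 (not_lt.2 h2)⟩
  · rintro ⟨h1, h2⟩
    push Not at h2
    obtain ⟨j, hj⟩ := h2
    exact ⟨h1, j, hj (h1 j)⟩

lemma integral_octant {w : ℕ} (hw : 2 ≤ w) : integral w (octant w) = (zeta w : ℂ) := by
  rw [octant_eq]
  exact Pool.Agent.R352.Q.NI_full hw

lemma integral_rest {w : ℕ} (hw : 2 ≤ w) {x : ℚ} (hx : 0 < x) :
    integral w (rest w x) = (Pool.Agent.R352.Q.Rk w x : ℂ) := by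
  have hx' : (0 : ℝ) < x := by exact_mod_cast hx
  have h : integral w (rest w x) = Pool.Agent.R352.Q.NI w
      (Pool.Agent.R352.Q.cube w (Set.Ioi 0) \ Pool.Agent.R352.Q.cube w (Set.Ioo 0 x)) := by
    rw [integral, rest_eq]
    rfl
  rw [h, Pool.Agent.R352.Q.NI_diff, Pool.Agent.R352.Q.NI_full hw, Pool.Agent.R352.Q.NI_box hw hx',
    Pool.Agent.R352.Q.Rk]
  push_cast
  rfl

lemma R_eq {w : ℕ} (hw : 2 ≤ w) {x : ℚ} (hx : 0 < x) : R w x = Pool.Agent.R352.Q.Rk w x := by
  rw [R, integral_rest hw hx, Complex.ofReal_re]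

lemma num_eq {w : ℕ} (hw : 2 ≤ w) (o : Option ℚ) (ho : ∀ x, o = some x → 0 < x) :
    num w o = Run7.h168.Z3.zi w o := by
  cases o with
  | none => rfl
  | some x => exact R_eq hw (ho x rfl)

lemma three {x : ℚ} (hx : 0 < x) : R 3 x =
    1 / 12 * ∫ t in rest 3 x, Real.log (t 0 * t 1 / t 2 ^ 2) ^ 3 * Real.exp (-(t 0 + t 1 + t 2)) := by
  have hx' : (0 : ℝ) < x := by exact_mod_cast hx
  rw [rest_eq, Pool.Agent.R352.Q.three_rest hx', R_eq (by norm_num) hx]
  ring

/-- **(1)** For `w ≥ 2` and rational `x > 0` the normalized integral is `ζ(w)` for the whole octant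
and the real number `R_w(x)` for `(0, ∞)^w \ (0, x)^w`; a formula for `R_3(x)`.

**(2) Continued fractions.** Let `w ≥ 2` and let `T` be a finite set of pairs `(o, s)`, where `s` is
rational and `o` is either `none`, standing for `ζ(w)`, or a positive rational number `x`, standing for
`R_w(x)`; suppose that the numbers `ζ(w)`, `R_w(x)` which occur are not `0`.  For every `r` there is
`A ≥ 1` such that, if two different numbers `e^s ζ(w)`, `e^s R_w(x)` that belong to elements of `T` are
simple up to the scale `X` with `K` and `K'` breaks and at the prices `N` and `N'`, then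
`X ≤ A^(K+K'+1) (N + N' + 1)`.

**(3)** If one of the numbers is algebraic of degree at most `r`, then there is `A ≥ 1` such that, if
one of the others is simple up to the scale `X` with `K` breaks and at the price `N`, then
`X ≤ A^(K+1) (N + 1)`. -/
theorem result :
    ((∀ w : ℕ, 2 ≤ w → integral w (octant w) = (zeta w : ℂ) ∧
        ∀ x : ℚ, 0 < x → integral w (rest w x) = (R w x : ℂ)) ∧
      ∀ x : ℚ, 0 < x → R 3 x = 1 / 12 *
        ∫ t in rest 3 x, Real.log (t 0 * t 1 / t 2 ^ 2) ^ 3 * Real.exp (-(t 0 + t 1 + t 2))) ∧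
    ∀ w : ℕ, 2 ≤ w → ∀ T : Finset (Option ℚ × ℚ), (∀ p ∈ T, ∀ x, p.1 = some x → 0 < x) →
      (∀ p ∈ T, num w p.1 ≠ 0) → ∀ r : ℕ,
      (∃ A : ℝ, 1 ≤ A ∧ ∀ p ∈ T, ∀ q ∈ T, p ≠ q → ∀ (K K' : ℕ) (N N' X : ℝ), 0 ≤ N → 0 ≤ N' →
        Simple r K N X (Real.exp p.2 * num w p.1) → Simple r K' N' X (Real.exp q.2 * num w q.1) →
        X ≤ A ^ (K + K' + 1) * (N + N' + 1)) ∧
      ∀ p ∈ T, (∃ P : ℤ[X], P ≠ 0 ∧ P.natDegree ≤ r ∧ aeval (Real.exp p.2 * num w p.1) P = 0) →
        ∃ A : ℝ, 1 ≤ A ∧ ∀ q ∈ T, p ≠ q → ∀ (K : ℕ) (N X : ℝ), 0 ≤ N →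
          Simple r K N X (Real.exp q.2 * num w q.1) → X ≤ A ^ (K + 1) * (N + 1) := by
  refine ⟨⟨fun w hw => ⟨integral_octant hw, fun x hx => ?_⟩, fun x hx => three hx⟩, ?_⟩
  · have h := integral_rest hw hx
    rw [R, h, Complex.ofReal_re]
  · intro w hw T hT hne r
    have key : ∃ A : ℝ, 1 ≤ A ∧ ∀ p ∈ T, ∀ q ∈ T, p ≠ q → ∀ (K K' : ℕ) (N N' X : ℝ), 0 ≤ N → 0 ≤ N' →
        Simple r K N X (Real.exp p.2 * num w p.1) → Simple r K' N' X (Real.exp q.2 * num w q.1) →
        X ≤ A ^ (K + K' + 1) * (N + N' + 1) := by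
      obtain ⟨A, hA, h⟩ := Run7.h360.CF.simple_family
        (fun p : T => Real.exp p.1.2 * num w p.1.1) (fun p q hpq => by
          have hp := hT p.1 p.2
          have hq := hT q.1 q.2
          rw [num_eq hw _ hp, num_eq hw _ hq]
          refine Run7.h168.Z3.joint_zi w hw p.1.1 q.1.1 hp hq p.1.2 q.1.2 (fun h => ⟨fun hs => ?_, ?_⟩)
          · exact hpq (Subtype.ext (Prod.ext h hs))
          · have := hne p.1 p.2
            rwa [num_eq hw _ hp] at this) r
      exact ⟨A, hA, fun p hp q hq hpq K K' N N' X hN hN' h1 h2 =>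
        h ⟨p, hp⟩ ⟨q, hq⟩ (fun he => hpq (congrArg Subtype.val he)) K K' N N' X hN hN' h1 h2⟩
    refine ⟨key, ?_⟩
    intro p hp halg
    obtain ⟨A, hA, h⟩ := key
    obtain ⟨M, hM0, hM⟩ := Run7.h360.CF.simple_of_alg _ r halg
    refine ⟨A * (M + 1), by nlinarith, fun q hq hpq K N X hN hs => ?_⟩
    have h1 := h p hp q hq hpq 0 K M N X hM0 hN (hM 0 X) hs
    refine h1.trans ?_
    rw [zero_add, mul_pow]
    have h2 : 1 ≤ A ^ (K + 1) := one_le_pow₀ hA
    have h3 : M + 1 ≤ (M + 1) ^ (K + 1) := le_self_pow₀ (by linarith) (by omega)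
    rw [mul_assoc]
    refine mul_le_mul_of_nonneg_left ?_ (by linarith)
    nlinarith

end Pool.Agent.Results.MP_48b3e2_nt.ContinuedFractions
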