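import Mathlib
import Pool.Agent.Run7.h103.UN.AlgRel
import Pool.Agent.Run7.h103.PF.Meas
import Pool.Agent.Results.MP_a89d6d_nt.MeasurePiSquaredZetaThree

set_option autoImplicit false

/-!
# `ζ(3)` and number fields: a dichotomy at every scale

At the scale `(M, K)` a real number `w` has a predictable multiple in base `b` if for some integers
`m ≠ 0`, `l`, `q ≥ 1` with `|m|` and `q` at most `H = e ^ (A (K + 1))` the number `(m w + l) / q` is equal,
up to `e ^ (- ε M) / q`, to a number whose first `M` digits in base `b` are predicted by some automaton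
with at most `K` states, which reads the digits, with at most `A log (M / (K + 1))` errors. Digits may
be replaced by the differences between the digits and the letters of a fixed word of linear block
complexity.

Let `β_1, ..., β_l` be a basis of a real number field and let `a`, `b` be arbitrary bases, equal or not.
We prove: for all `A` and `ε > 0` there is `R` such that for all `M ≥ R (K + 1)`:

* `ζ(3)` has no predictable multiple in base `b`, or `|α_0 + α_1 ζ(3)| > e ^ (- ε M)` for ALL
  `α_j = ∑ c_{ij} β_i`, not both zero, with integers `|c_{ij}| ≤ H`. In particular, if `ζ(3)` is algebraic,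
  then it has no predictable multiple, at all these scales and for every base `b`.
* `π²` has no predictable multiple in base `a`, or `ζ(3)` has none in base `b`, or
  `|α_0 + α_1 π² + α_2 ζ(3)| > e ^ (- ε M)` for ALL `α_j = ∑ c_{ij} β_i`, not all zero, with integers
  `|c_{ij}| ≤ H`.

So at every scale there is a dichotomy: either the digits of `π²` and `ζ(3)` are unpredictable (and those
of all their small rational multiples), or `1, π², ζ(3)` have a measure of linear independence over
the number field at this scale. The general result concerns real numbers `z_j` with a measure of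
linear independence over `ℚ` which are quotients of polynomials in numbers with predictable multiples
in arbitrary bases.

Proof. In the residue field of the ring of bounded germs of sequences the represented numbers are
linearly disjoint from the real algebraic numbers (subspace theorem with moving forms, see
`Pool.Agent.Run7.h103.UN`), so a relation with algebraic coefficients gives relations over the germs of
rational numbers, which contradict the measure for `1, π², ζ(3)` of the starting files.
-/

namespace Pool.Agent.Results.MP_48b3e2_nt.NumberFieldDichotomy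

open Pool.Agent.Run7.h103.PF Pool.Agent.Run7.h103.UN

/-- `ζ(3)` -/
noncomputable def zeta3 : ℝ := ∑' n : ℕ, 1 / ((n : ℝ) + 1) ^ 3

/-- The numbers `z_j` are quotients of polynomials in numbers `x_i` with predictable multiples:
`|Q (x) z_j - P_j (x)| ≤ e ^ (-ε M)` for all `j`, with integer polynomials `Q`, `P_j` of degree at most
`d` in each variable, with coefficients at most `e ^ (A (K + 1))`, with
`|Q (x)| ≥ e ^ (- A (K + 1))` and `|x_i| ≤ e ^ (A (K + 1))`. -/
def Represented {k s : ℕ} (b : Fin k → ℕ) (u : Fin k → ℕ → ℤ) (d : ℕ) (A ε : ℝ) (M K : ℕ)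
    (z : Fin s → ℝ) : Prop :=
  ∃ (x : Fin k → ℝ) (a₀ : (Fin k → Fin (d + 1)) → ℤ) (a : Fin s → (Fin k → Fin (d + 1)) → ℤ),
    (∀ i, |x i| ≤ Real.exp (A * (K + 1))) ∧
    (∀ i, PredictableMultiple (b i) (u i) A ε M K (x i)) ∧
    SmallCoeff A K a₀ ∧ (∀ j, SmallCoeff A K (a j)) ∧
    Real.exp (-(A * (K + 1))) ≤ |value a₀ x| ∧
    ∀ j, |value a₀ x * z j - value (a j) x| ≤ Real.exp (-(ε * M))

lemma nearFracN_of {k s : ℕ} {b : Fin k → ℕ} {u : Fin k → ℕ → ℤ} {d : ℕ} {A ε : ℝ} {M K : ℕ}
    {z : Fin s → ℝ} (h : Represented b u d A ε M K z) : NearFracN b u d A ε M K z := by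
  obtain ⟨x, a₀, a, h1, h2, h3, h4, h5, h6⟩ := h
  exact ⟨x, a₀, a, h1, fun i => near_of (h2 i), h3, h4, h5, h6⟩

/-- the measure for `1, π², ζ(3)` -/
theorem measure : LinearMeasure ![1, Real.pi ^ 2, zeta3] := by
  obtain ⟨c, hc, κ, hκ, h⟩ := Pool.Agent.Results.MP_a89d6d_nt.MeasurePiSquaredZetaThree.base
  obtain ⟨w', c', hc', h'⟩ := pi_sq_lin
  obtain ⟨k, hk⟩ := exists_nat_ge κ
  set d : ℝ := min c c' with hd
  have hd0 : 0 < d := lt_min hc hc'
  obtain ⟨Q, hQ⟩ := exists_nat_ge (1 / d + 1)
  refine ⟨k + w' + 1, max Q 1, fun a ha H hH haH => ?_⟩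
  have hH1 : 1 ≤ H := (le_max_right _ _).trans hH
  have hHr : (1 : ℝ) ≤ H := by exact_mod_cast hH1
  have hH0 : (0 : ℝ) < H := by linarith
  have hHQ : 1 / d + 1 ≤ (H : ℝ) := hQ.trans (by exact_mod_cast (le_max_left _ _).trans hH)
  have hdH : 1 < d * H := by
    have : 1 / d < H := by linarith
    rw [div_lt_iff₀ hd0] at this
    linarith
  have habs : ∀ j, |(a j : ℝ)| ≤ H := fun j => by
    rw [← Int.cast_abs]
    exact_mod_cast haH j
  have hsum : ∑ j, (a j : ℝ) * (![1, Real.pi ^ 2, zeta3] : Fin 3 → ℝ) j =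
      (a 0 : ℝ) + a 1 * Real.pi ^ 2 + a 2 * zeta3 := by
    rw [Fin.sum_univ_three]
    simp only [Matrix.cons_val_zero, Matrix.cons_val_one, Matrix.cons_val, mul_one]
  rw [hsum]
  set T : ℝ := |(a 0 : ℝ) + a 1 * Real.pi ^ 2 + a 2 * zeta3| with hT
  have hTd : d ≤ T * (H : ℝ) ^ (k + w') := by
    by_cases ha2 : a 2 = 0
    · have hne : a 0 ≠ 0 ∨ a 1 ≠ 0 := by
        by_contra hcon
        push Not at hcon
        apply ha
        funext j
        fin_cases j
        · exact hcon.1
        · exact hcon.2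
        · exact ha2
      have h1 := h' (a 0) (a 1) hne H hHr (habs 0) (habs 1)
      have h2 : T = |(a 0 : ℝ) + a 1 * Real.pi ^ 2| := by
        rw [hT, ha2]
        simp
      rw [h2]
      calc d ≤ c' := min_le_right _ _
        _ ≤ (H : ℝ) ^ w' * |(a 0 : ℝ) + a 1 * Real.pi ^ 2| := h1
        _ ≤ (H : ℝ) ^ (k + w') * |(a 0 : ℝ) + a 1 * Real.pi ^ 2| := by
            gcongr
            omega
        _ = _ := mul_comm _ _
    · have h1 := h (a 0) (a 1) (a 2) H hHr ha2 (habs 1) (habs 2)
      have h2 : c * (H : ℝ) ^ (-κ) ≤ T := h1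
      have h3 : (H : ℝ) ^ (-κ) * (H : ℝ) ^ k ≥ 1 := by
        rw [← Real.rpow_natCast, ← Real.rpow_add hH0]
        exact Real.one_le_rpow hHr (by linarith)
      calc d ≤ c := min_le_left _ _
        _ = c * 1 := (mul_one c).symm
        _ ≤ c * ((H : ℝ) ^ (-κ) * (H : ℝ) ^ k) := by gcongr
        _ = c * (H : ℝ) ^ (-κ) * (H : ℝ) ^ k := by ring
        _ ≤ T * (H : ℝ) ^ k := by gcongr
        _ ≤ T * (H : ℝ) ^ (k + w') := by
            have : 0 ≤ T := abs_nonneg _
            gcongr
            omega
  calc (1 : ℝ) < d * H := hdH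
    _ ≤ T * (H : ℝ) ^ (k + w') * H := by gcongr
    _ = T * (H : ℝ) ^ (k + w' + 1) := by ring

/-- the measure for `1, ζ(3)` -/
theorem measure_two : LinearMeasure ![1, zeta3] := by
  obtain ⟨w, Q, h⟩ := measure
  refine ⟨w, Q, fun a ha H hH haH => ?_⟩
  have h1 := h ![a 0, 0, a 1] (by
    intro h0
    apply ha
    funext j
    fin_cases j
    · exact congrFun h0 0
    · exact congrFun h0 2) H hH (by
    intro j
    fin_cases j
    · exact haH 0
    · change |(0 : ℤ)| ≤ _
      rw [abs_zero]
      exact Int.natCast_nonneg _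
    · exact haH 1)
  rw [Fin.sum_univ_three] at h1
  rw [Fin.sum_univ_two]
  simp only [Matrix.cons_val_zero, Matrix.cons_val_one, Matrix.cons_val, mul_one, Int.cast_zero,
    zero_mul, add_zero] at h1 ⊢
  exact h1

/-- the general result -/
theorem general {l s : ℕ} (β : Fin l → ℝ) (halg : ∀ i, IsAlgebraic ℚ (β i))
    (hβ : LinearIndependent ℚ β) {z : Fin s → ℝ} (hz : LinearMeasure z) {k : ℕ} (b : Fin k → ℕ)
    (hb : ∀ i, 2 ≤ b i) {C : ℝ} (u : Fin k → ℕ → ℤ) (hu : ∀ i, SimpleWord (b i) C (u i)) (d : ℕ)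
    (A : ℝ) {ε : ℝ} (hε : 0 < ε) :
    ∃ R : ℕ, 1 ≤ R ∧ ∀ M K : ℕ, R * (K + 1) ≤ M → Represented b u d A ε M K z →
      ∀ c : Fin l → Fin s → ℤ, c ≠ 0 → (∀ i j, |(c i j : ℝ)| ≤ Real.exp (A * (K + 1))) →
      Real.exp (-(ε * M)) < |∑ j, (∑ i, (c i j : ℝ) * β i) * z j| := by
  classical
  choose R hR using fun p : Fin l × Fin s => alg_rel_fixed β halg hβ hz b hb u
    (fun i => simple_of (hu i)) d A hε p.1 p.2
  refine ⟨∑ p, R p + 1, by omega, fun M K hMK hrep c hc hcA => ?_⟩
  obtain ⟨i0, j0, hij⟩ : ∃ i j, c i j ≠ 0 := by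
    by_contra hcon
    push Not at hcon
    exact hc (funext fun i => funext fun j => hcon i j)
  have hRp : R (i0, j0) * (K + 1) ≤ M := le_trans (Nat.mul_le_mul_right _
    ((Finset.single_le_sum (f := R) (fun _ _ => Nat.zero_le _)
      (Finset.mem_univ (i0, j0))).trans (Nat.le_succ _))) hMK
  have h1 := hR (i0, j0) M K hRp (nearFracN_of hrep) c hij hcA
  have e : ∑ i, β i * ∑ j, (c i j : ℝ) * z j = ∑ j, (∑ i, (c i j : ℝ) * β i) * z j := by
    simp only [Finset.mul_sum, Finset.sum_mul]
    rw [Finset.sum_comm]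
    exact Finset.sum_congr rfl fun j _ => Finset.sum_congr rfl fun i _ => by ring
  rw [← e]
  exact h1

/-- (1) Let `β_1, ..., β_l` be real algebraic numbers which are linearly independent over `ℚ`, let
`z_1, ..., z_s` be real numbers with a measure of linear independence over `ℚ` (`LinearMeasure`), let
`b_i ≥ 2` be arbitrary integers and `u_i` words of linear block complexity over `{0, ..., b_i - 1}`. For
all `d`, `A` and `ε > 0` there is `R` such that for all `M`, `K` with `R (K + 1) ≤ M`: if the `z_j` are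
quotients of polynomials in numbers with predictable multiples in base `b_i` (`Represented`), then
`|∑ α_j z_j| > e ^ (- ε M)` for all `α_j = ∑ c_{ij} β_i` with integers `c_{ij}`, not all zero, of absolute
value at most `e ^ (A (K + 1))`.

(2) The numbers `1, π², ζ(3)` have a measure. Let `a, b ≥ 2` be integers and `u`, `v` words of linear
block complexity over `{0, ..., a - 1}` and `{0, ..., b - 1}`. For all `A` and `ε > 0` there is `R` such that
for all `M`, `K` with `R (K + 1) ≤ M`: if `π²` has a predictable multiple in base `a` and `ζ(3)` has one in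
base `b` (`PredictableMultiple`), then `|α_0 + α_1 π² + α_2 ζ(3)| > e ^ (- ε M)` for all such `α_j`, not all
zero.

(3) If `ζ(3)` has a predictable multiple in base `b`, then `|α_0 + α_1 ζ(3)| > e ^ (- ε M)` for all such
`α_j`, not both zero.

(4) If `ζ(3)` is algebraic, then for all `b ≥ 2`, all words `v` of linear block complexity, all `A` and
`ε > 0` there is `R` such that `ζ(3)` has no predictable multiple in base `b` for all `M`, `K` with
`R (K + 1) ≤ M`. -/
theorem result :
    (∀ (l : ℕ) (β : Fin l → ℝ), (∀ i, IsAlgebraic ℚ (β i)) → LinearIndependent ℚ β →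
      ∀ (s : ℕ) (z : Fin s → ℝ), LinearMeasure z → ∀ (k : ℕ) (b : Fin k → ℕ), (∀ i, 2 ≤ b i) →
      ∀ (C : ℝ) (u : Fin k → ℕ → ℤ), (∀ i, SimpleWord (b i) C (u i)) → ∀ (d : ℕ) (A ε : ℝ), 0 < ε →
      ∃ R : ℕ, ∀ M K : ℕ, R * (K + 1) ≤ M → Represented b u d A ε M K z →
        ∀ c : Fin l → Fin s → ℤ, c ≠ 0 → (∀ i j, |(c i j : ℝ)| ≤ Real.exp (A * (K + 1))) →
        Real.exp (-(ε * M)) < |∑ j, (∑ i, (c i j : ℝ) * β i) * z j|) ∧
    LinearMeasure ![1, Real.pi ^ 2, zeta3] ∧
    (∀ (l : ℕ) (β : Fin l → ℝ), (∀ i, IsAlgebraic ℚ (β i)) → LinearIndependent ℚ β →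
      ∀ a b : ℕ, 2 ≤ a → 2 ≤ b → ∀ (C : ℝ) (u v : ℕ → ℤ), SimpleWord a C u → SimpleWord b C v →
      ∀ A ε : ℝ, 0 < ε → ∃ R : ℕ, ∀ M K : ℕ, R * (K + 1) ≤ M →
        PredictableMultiple a u A ε M K (Real.pi ^ 2) → PredictableMultiple b v A ε M K zeta3 →
        ∀ c : Fin l → Fin 3 → ℤ, c ≠ 0 → (∀ i j, |(c i j : ℝ)| ≤ Real.exp (A * (K + 1))) →
        Real.exp (-(ε * M)) < |∑ i, (c i 0 : ℝ) * β i + (∑ i, (c i 1 : ℝ) * β i) * Real.pi ^ 2 +
          (∑ i, (c i 2 : ℝ) * β i) * zeta3|) ∧
    (∀ (l : ℕ) (β : Fin l → ℝ), (∀ i, IsAlgebraic ℚ (β i)) → LinearIndependent ℚ β →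
      ∀ b : ℕ, 2 ≤ b → ∀ (C : ℝ) (v : ℕ → ℤ), SimpleWord b C v →
      ∀ A ε : ℝ, 0 < ε → ∃ R : ℕ, ∀ M K : ℕ, R * (K + 1) ≤ M →
        PredictableMultiple b v A ε M K zeta3 →
        ∀ c : Fin l → Fin 2 → ℤ, c ≠ 0 → (∀ i j, |(c i j : ℝ)| ≤ Real.exp (A * (K + 1))) →
        Real.exp (-(ε * M)) < |∑ i, (c i 0 : ℝ) * β i + (∑ i, (c i 1 : ℝ) * β i) * zeta3|) ∧
    (IsAlgebraic ℚ zeta3 → ∀ b : ℕ, 2 ≤ b → ∀ (C : ℝ) (v : ℕ → ℤ), SimpleWord b C v →
      ∀ A ε : ℝ, 0 < ε → ∃ R : ℕ, ∀ M K : ℕ, R * (K + 1) ≤ M →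
        ¬ PredictableMultiple b v A ε M K zeta3) := by
  have part1 : ∀ (l : ℕ) (β : Fin l → ℝ), (∀ i, IsAlgebraic ℚ (β i)) → LinearIndependent ℚ β →
      ∀ b : ℕ, 2 ≤ b → ∀ (C : ℝ) (v : ℕ → ℤ), SimpleWord b C v →
      ∀ A ε : ℝ, 0 < ε → ∃ R : ℕ, ∀ M K : ℕ, R * (K + 1) ≤ M →
        PredictableMultiple b v A ε M K zeta3 →
        ∀ c : Fin l → Fin 2 → ℤ, c ≠ 0 → (∀ i j, |(c i j : ℝ)| ≤ Real.exp (A * (K + 1))) →
        Real.exp (-(ε * M)) < |∑ i, (c i 0 : ℝ) * β i + (∑ i, (c i 1 : ℝ) * β i) * zeta3| := by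
    intro l β halg hβ b hb C v hv A ε hε
    set A' : ℝ := |A| + |zeta3| with hA'
    have hAA' : A ≤ A' := by
      have := le_abs_self A
      have := abs_nonneg zeta3
      linarith
    obtain ⟨R, hR1, hR⟩ := general β halg hβ measure_two (k := 1) (fun _ => b) (fun _ => hb)
      (fun _ => v) (fun _ => hv) 1 A' hε
    refine ⟨R, fun M K hMK hz c hc hcA => ?_⟩
    have hlog := log_nonneg_of hR1 hMK
    have hone : (1 : ℝ) ≤ Real.exp (A' * (K + 1)) := Real.one_le_exp (by positivity)
    have h1 := hR M K hMK ⟨fun _ => zeta3, mono 0 1, ![mono 0 1, mono (Pi.single 0 1) 1], fun _ => by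
      have h2 := exp_const (c := |zeta3|) |A| K
      rw [abs_abs] at h2
      refine le_trans ?_ h2
      exact le_mul_of_one_le_right (abs_nonneg _) (Real.one_le_exp (by positivity)),
      fun _ => hz.mono_A hAA' hlog, small_mono (by simpa using hone), fun j => by
        fin_cases j
        · exact small_mono (by simpa using hone)
        · exact small_mono (by simpa using hone), by
      rw [value_const, Int.cast_one, abs_one, Real.exp_le_one_iff]
      have : 0 ≤ A' * ((K : ℝ) + 1) := by positivity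
      linarith, fun j => by
      fin_cases j
      · change |value (mono 0 1) _ * (1 : ℝ) - value (mono 0 1) _| ≤ _
        rw [mul_one, sub_self, abs_zero]
        exact (Real.exp_pos _).le
      · change |value (mono 0 1) _ * zeta3 - value (mono (Pi.single 0 1) 1) _| ≤ _
        rw [value_const, value_X (d := 0)]
        simp only [Int.cast_one, one_mul]
        rw [sub_self, abs_zero]
        exact (Real.exp_pos _).le⟩ c hc fun i j => (hcA i j).trans (exp_mono hAA' K)
    rw [Fin.sum_univ_two] at h1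
    simpa only [Matrix.cons_val_zero, Matrix.cons_val_one, mul_one] using h1
  refine ⟨?_, measure, ?_, part1, ?_⟩
  · intro l β halg hβ s z hz k b hb C u hu d A ε hε
    obtain ⟨R, -, hR⟩ := general β halg hβ hz b hb u hu d A hε
    exact ⟨R, hR⟩
  · intro l β halg hβ a b ha hb C u v hu hv A ε hε
    set P : ℝ := Real.pi ^ 2 with hP
    set A' : ℝ := |A| + (|P| + |zeta3|) with hA'
    have hAA' : A ≤ A' := by
      have := le_abs_self A
      have := abs_nonneg zeta3
      have := abs_nonneg P
      linarith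
    obtain ⟨R, hR1, hR⟩ := general β halg hβ measure (k := 2) ![a, b] (by
      intro i
      fin_cases i
      · exact ha
      · exact hb) ![u, v] (by
      intro i
      fin_cases i
      · exact hu
      · exact hv) 1 A' hε
    refine ⟨R, fun M K hMK hp hz c hc hcA => ?_⟩
    have hlog := log_nonneg_of hR1 hMK
    have hone : (1 : ℝ) ≤ Real.exp (A' * (K + 1)) := Real.one_le_exp (by positivity)
    have hbd : ∀ y : ℝ, |y| ≤ |P| + |zeta3| → |y| ≤ Real.exp (A' * (K + 1)) := by
      intro y hy
      have h2 := exp_const (c := |P| + |zeta3|) |A| K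
      rw [abs_of_nonneg (add_nonneg (abs_nonneg P) (abs_nonneg zeta3))] at h2
      refine le_trans ?_ h2
      refine hy.trans (le_mul_of_one_le_right (by positivity) (Real.one_le_exp (by positivity)))
    have h1 := hR M K hMK ⟨![P, zeta3], mono 0 1,
      ![mono 0 1, mono (Pi.single 0 1) 1, mono (Pi.single 1 1) 1], fun i => by
        have g1 := abs_nonneg P
        have g2 := abs_nonneg zeta3
        fin_cases i
        · exact hbd P (by linarith)
        · exact hbd zeta3 (by linarith),
      fun i => by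
        fin_cases i
        · exact hp.mono_A hAA' hlog
        · exact hz.mono_A hAA' hlog,
      small_mono (by simpa using hone), fun j => by
        fin_cases j
        · exact small_mono (by simpa using hone)
        · exact small_mono (by simpa using hone)
        · exact small_mono (by simpa using hone), by
      rw [value_const, Int.cast_one, abs_one, Real.exp_le_one_iff]
      have : 0 ≤ A' * ((K : ℝ) + 1) := by positivity
      linarith, fun j => by
      fin_cases j
      · change |value (mono 0 1) _ * (1 : ℝ) - value (mono 0 1) _| ≤ _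
        rw [mul_one, sub_self, abs_zero]
        exact (Real.exp_pos _).le
      · change |value (mono 0 1) _ * P - value (mono (Pi.single 0 1) 1) _| ≤ _
        rw [value_const, value_X (d := 0)]
        simp only [Int.cast_one, one_mul, Matrix.cons_val_zero, sub_self, abs_zero]
        exact (Real.exp_pos _).le
      · change |value (mono 0 1) _ * zeta3 - value (mono (Pi.single 1 1) 1) _| ≤ _
        rw [value_const, value_X (d := 0)]
        simp only [Int.cast_one, one_mul]
        change |zeta3 - zeta3| ≤ _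
        rw [sub_self, abs_zero]
        exact (Real.exp_pos _).le⟩ c hc fun i j => (hcA i j).trans (exp_mono hAA' K)
    rw [Fin.sum_univ_three] at h1
    simpa only [Matrix.cons_val_zero, Matrix.cons_val_one, Matrix.cons_val, mul_one] using h1
  · intro halg b hb C v hv A ε hε
    have hirr : ∀ p q : ℤ, (p : ℝ) + q * zeta3 = 0 → p = 0 ∧ q = 0 := by
      intro p q h0
      by_contra hcon
      obtain ⟨w, Q, h⟩ := measure_two
      have h1 := h ![p, q] (by
        intro h2
        exact hcon ⟨congrFun h2 0, congrFun h2 1⟩) (Q + (|p| + |q|).toNat) (by omega) (by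
        intro j
        have g1 := abs_nonneg p
        have g2 := abs_nonneg q
        fin_cases j
        · change |p| ≤ ((Q + (|p| + |q|).toNat : ℕ) : ℤ)
          push_cast
          rw [Int.toNat_of_nonneg (by positivity)]
          omega
        · change |q| ≤ ((Q + (|p| + |q|).toNat : ℕ) : ℤ)
          push_cast
          rw [Int.toNat_of_nonneg (by positivity)]
          omega)
      rw [Fin.sum_univ_two] at h1
      simp only [Matrix.cons_val_zero, Matrix.cons_val_one, mul_one] at h1
      rw [h0, abs_zero, zero_mul] at h1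
      linarith
    have hβ : LinearIndependent ℚ ![1, zeta3] := by
      rw [LinearIndependent.pair_iff]
      intro s t hst
      have hs0 : (s.den : ℤ) ≠ 0 := by exact_mod_cast s.den_ne_zero
      have ht0 : (t.den : ℤ) ≠ 0 := by exact_mod_cast t.den_ne_zero
      have h1 : (s : ℝ) + t * zeta3 = 0 := by
        have h2 := hst
        rw [Rat.smul_def, Rat.smul_def, mul_one] at h2
        exact h2
      have hs : (s.num : ℝ) = s * s.den := by
        exact_mod_cast (Rat.mul_den_eq_num s).symm
      have ht : (t.num : ℝ) = t * t.den := by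
        exact_mod_cast (Rat.mul_den_eq_num t).symm
      have h2 := hirr (s.num * t.den) (t.num * s.den) (by
        push_cast
        rw [hs, ht]
        have : (s : ℝ) * s.den * t.den + t * t.den * s.den * zeta3 =
            s.den * t.den * (s + t * zeta3) := by ring
        rw [this, h1, mul_zero])
      constructor
      · exact Rat.num_eq_zero.1 ((mul_eq_zero.1 h2.1).resolve_right ht0)
      · exact Rat.num_eq_zero.1 ((mul_eq_zero.1 h2.2).resolve_right hs0)
    obtain ⟨R, hR⟩ := part1 2 ![1, zeta3] (by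
      intro i
      fin_cases i
      · exact isAlgebraic_one
      · exact halg) hβ b hb C v hv |A| ε hε
    refine ⟨R + 1, fun M K hMK hcon => ?_⟩
    have hMK1 : 1 * (K + 1) ≤ M := le_trans (Nat.mul_le_mul_right _ (Nat.le_add_left 1 R)) hMK
    have hMK2 : R * (K + 1) ≤ M := le_trans (Nat.mul_le_mul_right _ (Nat.le_succ R)) hMK
    have hlog := log_nonneg_of le_rfl hMK1
    have hone : (1 : ℝ) ≤ Real.exp (|A| * (K + 1)) := Real.one_le_exp (by positivity)
    have h1 := hR M K hMK2 (hcon.mono_A (le_abs_self A) hlog) ![![0, 1], ![-1, 0]] (by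
      intro h0
      have := congrFun (congrFun h0 0) 1
      simp at this) (by
      intro i j
      fin_cases i <;> fin_cases j
      · simpa using (Real.exp_pos _).le
      · simpa using hone
      · simpa using hone
      · simpa using (Real.exp_pos _).le)
    have e : ∑ i, ((![![0, 1], ![-1, 0]] : Fin 2 → Fin 2 → ℤ) i 0 : ℝ) * (![1, zeta3] : Fin 2 → ℝ) i +
        (∑ i, ((![![0, 1], ![-1, 0]] : Fin 2 → Fin 2 → ℤ) i 1 : ℝ) *
          (![1, zeta3] : Fin 2 → ℝ) i) * zeta3 = 0 := by
      rw [Fin.sum_univ_two, Fin.sum_univ_two]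
      simp
    rw [e, abs_zero] at h1
    exact absurd h1 (not_lt.2 (Real.exp_pos _).le)

end Pool.Agent.Results.MP_48b3e2_nt.NumberFieldDichotomy
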