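import Mathlib
import Pool.Agent.Run7.h123.LC.Zeta
import Pool.Agent.R352.Q.Three

set_option autoImplicit false

/-!
# `ζ(3)` and incomplete zeta values over the fields of numbers with simple expansions

Let `w ≥ 2`, `ω = exp (2 π i / w)`, and for rational `x > 0` let `R_w(x)` be the real part of
`(-1)^w / w! * ∫ (∑_j ω^j log t_j)^w exp (-∑_j t_j) dt`, the integral being over
`(0, ∞)^w \ (0, x)^w`; the same integral over the whole octant is `ζ(w)`. For `w = 3`,
`R_3(x) = 1/12 * ∫ log(t_1 t_2 / t_3²)³ exp (-t_1 - t_2 - t_3) dt`, the integral being over the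
points of the positive octant with `max t_i ≥ x`.

Let `K_b` be the field of the real numbers which are algebraic over the field generated by the numbers
with simple expansions (`O(m)` different blocks of length `m`, `m ∈ S`) in bases dependent on `b`. For
every finite set of pairs `(w, x)` and all bases `b` outside a group of rank at most the number of pairs
plus one, the numbers `e` and `ζ(w) - R_w(x)` are algebraically independent over `K_b`. Hence at most
one of the numbers `ζ(3), R_3(x_1), …, R_3(x_m)` is algebraic over `K_b(e)`.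
-/

namespace Pool.Agent.Results.MP_48b3e2_nt.ZetaThreeOverSimpleFields

open Set MeasureTheory

/-- the zeta value `ζ(w) = ∑ 1 / n^w` -/
noncomputable def zeta (w : ℕ) : ℝ := ∑' n : ℕ, 1 / ((n : ℝ) + 1) ^ w

/-- `ω = exp (2 π i / w)` -/
noncomputable def root (w : ℕ) : ℂ := Complex.exp (2 * Real.pi * Complex.I / w)

/-- `(∑_j ω^j log t_j)^w exp (-∑_j t_j)` -/
noncomputable def integrand (w : ℕ) (t : Fin w → ℝ) : ℂ :=
  (∑ j : Fin w, root w ^ (j : ℕ) * (Real.log (t j) : ℂ)) ^ w * ((Real.exp (-∑ j, t j) : ℝ) : ℂ)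

/-- `(0, ∞)^w \ (0, x)^w` -/
def rest (w : ℕ) (x : ℝ) : Set (Fin w → ℝ) := {t | (∀ j, 0 < t j) ∧ ∃ j, x ≤ t j}

/-- the number `R_w(x)` -/
noncomputable def R (w : ℕ) (x : ℚ) : ℝ :=
  ((-1) ^ w / w.factorial * ∫ t in rest w x, integrand w t : ℂ).re

/-- the number of different blocks of length `m` in the sequence `w` -/
noncomputable def blocks {A : Type} (w : ℕ → A) (m : ℕ) : ℕ :=
  (Set.range fun i => fun j : Fin m => w (i + j)).ncard

/-- the digit with index `k + 1` after the point in the base `b` expansion of `x` -/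
noncomputable def digit (b : ℕ) (x : ℝ) (k : ℕ) : ℤ := ⌊x * (b : ℝ) ^ (k + 1)⌋ % (b : ℤ)

/-- the group of the positive rational numbers `u` such that `u ^ m = b ^ k` for some integers
`m ≥ 1` and `k` -/
def group (b : ℕ) : Subgroup ℚˣ := Pool.Agent.Run7.h123.LC.rad b

lemma mem_group {b : ℕ} {u : ℚˣ} : u ∈ group b ↔ 0 < (u : ℚ) ∧
    ∃ (m : ℕ) (k : ℤ), 1 ≤ m ∧ (u : ℚ) ^ m = (b : ℚ) ^ k := Iff.rfl

/-- the sums of the series `∑ γ(w_0) ⋯ γ(w_{k-1}) c(w_k)`, where the `w_k` are in a finite set `A`,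
`γ(a)` and `c(a)` are rational, `|γ(a)| < 1`, `|γ(a)|` is in the group of `b` and the sequence `w` has
at most `C m` different blocks of length `m`, for all `m ∈ S` -/
def Series (S : Set ℕ) (b : ℕ) : Set ℝ :=
  {x | ∃ (A : Type) (_ : Finite A) (γ c : A → ℚ) (w : ℕ → A) (C : ℝ),
    (∀ a, ∃ u ∈ group b, |γ a| = ((u : ℚˣ) : ℚ)) ∧ (∀ a, |γ a| < 1) ∧
    HasSum (fun n => (∏ k ∈ Finset.range n, (γ (w k) : ℝ)) * (c (w n) : ℝ)) x ∧
    ∀ m ∈ S, (blocks w m : ℝ) ≤ C * m}

/-- the field of the real numbers which are algebraic over the field generated by `Series S b` -/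
noncomputable def K (S : Set ℕ) (b : ℕ) : Subfield ℝ :=
  (algebraicClosure (Subfield.closure (Series S b)) ℝ).toSubfield

/-- multiplicatively independent integers -/
def Independent {r : ℕ} (b : Fin r → ℕ) : Prop :=
  ∀ k : Fin r → ℤ, ∏ i, (b i : ℚ) ^ k i = 1 → k = 0

/-- `z` is algebraic over the field generated by `F` and `A` -/
def AlgebraicOver (F : Subfield ℝ) (A : Set ℝ) (z : ℝ) : Prop :=
  IsAlgebraic (Subfield.closure ((F : Set ℝ) ∪ A)) z

/-- the number `e` and the differences `ζ(w) - R_w(x)`, `(w, x) ∈ T` -/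
noncomputable def differences (T : Finset (ℕ × ℚ)) (o : Option T) : ℝ :=
  o.elim (Real.exp 1) fun p => zeta p.1.1 - R p.1.1 p.1.2

/-- the names of those of the numbers `y_1, …, y_r` and `R_w(x)` (`(w, x) ∈ T`, `ζ(w)` algebraic over
`F(e, y_1, …, y_r)`) which are algebraic over `F(e)` -/
def algebraicNames (F : Subfield ℝ) (T : Finset (ℕ × ℚ)) {r : ℕ} (y : Fin r → ℝ) :
    Set (Fin r ⊕ T) :=
  {i | AlgebraicOver F {Real.exp 1} (Sum.elim y (fun p => R p.1.1 p.1.2) i) ∧
    ∀ p, i = Sum.inr p → AlgebraicOver F ({Real.exp 1} ∪ range y) (zeta p.1.1)}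

/-- the names of those of the numbers `ζ(w)` (for `none`) and `R_w(x)` (`(w, x) ∈ T`) which are
algebraic over `F(e)` -/
def zetaNames (F : Subfield ℝ) (T : Finset (ℕ × ℚ)) (w : ℕ) : Set (Option {x : ℚ // (w, x) ∈ T}) :=
  {o | AlgebraicOver F {Real.exp 1} (o.elim (zeta w) fun x => R w x)}

lemma rest_eq (w : ℕ) (x : ℝ) :
    rest w x = Pool.Agent.R352.Q.cube w (Ioi 0) \ Pool.Agent.R352.Q.cube w (Ioo 0 x) := by
  ext t
  simp only [rest, Pool.Agent.R352.Q.cube, mem_sdiff, mem_univ_pi, mem_Ioi, mem_Ioo]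
  constructor
  · rintro ⟨h1, j, h2⟩
    exact ⟨h1, fun h => absurd (h j).2 (not_lt.2 h2)⟩
  · rintro ⟨h1, h2⟩
    push Not at h2
    obtain ⟨j, hj⟩ := h2
    exact ⟨h1, j, hj (h1 j)⟩

lemma integral_rest {w : ℕ} (hw : 2 ≤ w) {x : ℚ} (hx : 0 < x) :
    ((-1) ^ w / w.factorial * ∫ t in rest w x, integrand w t : ℂ) =
      (Pool.Agent.R352.Q.Rk w x : ℂ) := by
  have hx' : (0 : ℝ) < x := by exact_mod_cast hx
  have h : ((-1) ^ w / w.factorial * ∫ t in rest w x, integrand w t : ℂ) =
      Pool.Agent.R352.Q.NI w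
        (Pool.Agent.R352.Q.cube w (Set.Ioi 0) \ Pool.Agent.R352.Q.cube w (Set.Ioo 0 x)) := by
    rw [rest_eq]
    rfl
  rw [h, Pool.Agent.R352.Q.NI_diff, Pool.Agent.R352.Q.NI_full hw, Pool.Agent.R352.Q.NI_box hw hx',
    Pool.Agent.R352.Q.Rk]
  push_cast
  rfl

lemma R_eq {w : ℕ} (hw : 2 ≤ w) {x : ℚ} (hx : 0 < x) : R w x = Pool.Agent.R352.Q.Rk w x := by
  rw [R, integral_rest hw hx, Complex.ofReal_re]

lemma diff_eq {w : ℕ} (hw : 2 ≤ w) {x : ℚ} (hx : 0 < x) :
    zeta w - R w x = Pool.Agent.R352.Q.Zk w x := by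
  rw [R_eq hw hx, Pool.Agent.R352.Q.Rk, zeta, Pool.Agent.R352.E.zt]
  ring

lemma three {x : ℚ} (hx : 0 < x) : R 3 x =
    1 / 12 * ∫ t in rest 3 x, Real.log (t 0 * t 1 / t 2 ^ 2) ^ 3 * Real.exp (-(t 0 + t 1 + t 2)) := by
  have hx' : (0 : ℝ) < x := by exact_mod_cast hx
  rw [rest_eq, Pool.Agent.R352.Q.three_rest hx', R_eq (by norm_num) hx]
  ring

section

open Pool.Agent.Run7.h123.LC

lemma count_names {F : Subfield ℝ} {T : Finset (ℕ × ℚ)}
    (h : AlgebraicIndependent F (differences T)) {r : ℕ} (y : Fin r → ℝ) :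
    (algebraicNames F T y).ncard ≤ r := by
  classical
  set T' : Finset T := Finset.univ.filter fun p : T =>
    AlgebraicOver F ({Real.exp 1} ∪ range y) (zeta p.1.1) with hT'
  set u : Fin r ⊕ T' → ℝ := Sum.elim y (fun p => R p.1.1.1 p.1.1.2) with hu
  have h1 := count (F := F) (ι := Option T') (κ := Fin r ⊕ T')
    (v := fun o => differences T (o.map Subtype.val))
    (h.comp _ (Option.map_injective Subtype.val_injective)) (u := u) (e := Real.exp 1) (by
      rintro (_ | p)
      · exact subset_clS _ (Set.mem_insert _ _)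
      · have h2 : zeta p.1.1.1 ∈ clS F (insert (Real.exp 1) (range u)) := by
          have h3 := mem_clS_of (Finset.mem_filter.1 p.2).2
          refine clS_mono ?_ h3
          rintro z (hz | ⟨i, rfl⟩)
          · rw [Set.mem_singleton_iff.1 hz]
            exact Set.mem_insert _ _
          · exact Set.mem_insert_of_mem _ ⟨Sum.inl i, rfl⟩
        have h3 : R p.1.1.1 p.1.1.2 ∈ clS F (insert (Real.exp 1) (range u)) :=
          subset_clS _ (Set.mem_insert_of_mem _ ⟨Sum.inr p, rfl⟩)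
        exact sub_mem h2 h3)
  have h2 : (algebraicNames F T y).ncard ≤ {k | u k ∈ clS F {Real.exp 1}}.ncard := by
    have h3 : algebraicNames F T y ⊆
        (Sum.map id Subtype.val : Fin r ⊕ T' → Fin r ⊕ T) '' {k | u k ∈ clS F {Real.exp 1}} := by
      rintro (i | p) ⟨hi1, hi2⟩
      · exact ⟨Sum.inl i, mem_clS_of hi1, rfl⟩
      · have hp : p ∈ T' := Finset.mem_filter.2 ⟨Finset.mem_univ _, hi2 p rfl⟩
        exact ⟨Sum.inr ⟨p, hp⟩, mem_clS_of hi1, rfl⟩
    exact (Set.ncard_le_ncard h3 (Set.toFinite _)).trans (Set.ncard_image_le (Set.toFinite _))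
  simp only [Fintype.card_option, Fintype.card_sum, Fintype.card_fin] at h1
  omega

lemma count_zeta {F : Subfield ℝ} {T : Finset (ℕ × ℚ)}
    (h : AlgebraicIndependent F (differences T)) (w : ℕ) : (zetaNames F T w).ncard ≤ 1 := by
  classical
  refine le_trans ?_ (count_names h (r := 1) (fun _ => zeta w))
  let f : Option {x : ℚ // (w, x) ∈ T} → Fin 1 ⊕ T := fun o =>
    o.elim (Sum.inl 0) fun x => Sum.inr ⟨(w, x), x.2⟩
  have hf : Function.Injective f := by
    intro a b hab
    cases a with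
    | none =>
      cases b with
      | none => rfl
      | some b => exact absurd hab (by simp [f])
    | some a =>
      cases b with
      | none => exact absurd hab (by simp [f])
      | some b =>
        simp only [f, Option.elim, Sum.inr.injEq, Subtype.mk.injEq, Prod.mk.injEq, true_and] at hab
        rw [Subtype.ext hab]
  rw [← Set.ncard_image_of_injective _ hf]
  refine Set.ncard_le_ncard ?_ (Set.toFinite _)
  rintro _ ⟨o, ho, rfl⟩
  cases o with
  | none => exact ⟨ho, fun p hp => absurd hp (by simp [f])⟩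
  | some x =>
    refine ⟨ho, fun p hp => ?_⟩
    have hp' : p.1.1 = w := by
      have h1 := Sum.inr_injective hp
      rw [← h1]
    rw [hp']
    exact isAlgebraic_algebraMap (⟨zeta w, Subfield.subset_closure
      (Or.inr (Or.inr ⟨0, rfl⟩))⟩ : Subfield.closure ((F : Set ℝ) ∪
        ({Real.exp 1} ∪ range fun _ : Fin 1 => zeta w)))

end

/-- (1) Let `S` be an infinite set of integers and `T` a finite set of pairs `(w, x)` with `w ≥ 2`,
`x > 0`. There are `k ≤ |T| + 1` multiplicatively independent integers `c_1, …, c_k ≥ 2` such that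
for all `b ≥ 2` for which `c_1, …, c_k, b` are multiplicatively independent and `K = K S b`:

(a) `e` and the numbers `ζ(w) - R_w(x)`, `(w, x) ∈ T`, are algebraically independent over `K`;

(b) for any real numbers `y_1, …, y_r`, at most `r` of the numbers `y_1, …, y_r` and `R_w(x)`
(`(w, x) ∈ T`, `ζ(w)` algebraic over `K(e, y_1, …, y_r)`) are algebraic over `K(e)`;

(c) for every `w`, at most one of the numbers `ζ(w)` and `R_w(x)` (`(w, x) ∈ T`) is algebraic
over `K(e)`; in particular (`w = 3`) at most one of the numbers `ζ(3)` and `R_3(x)`.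

(2) The formula for `R_3(x)`.

(3) The field `K S b` contains all real numbers which have, in some base `d ≥ 2` with `d ^ m = b ^ k`,
`m ≥ 1`, at most `C m` different blocks of `m` digits, `m ∈ S`, for some `C`. -/
theorem result :
    (∀ S : Set ℕ, S.Infinite → ∀ T : Finset (ℕ × ℚ), (∀ p ∈ T, 2 ≤ p.1 ∧ 0 < p.2) →
      ∃ (k : ℕ) (c : Fin k → ℕ), k ≤ T.card + 1 ∧ (∀ i, 2 ≤ c i) ∧ Independent c ∧
      ∀ b : ℕ, 2 ≤ b → Independent (Fin.snoc c b : Fin (k + 1) → ℕ) →
        AlgebraicIndependent (K S b) (differences T) ∧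
        (∀ (r : ℕ) (y : Fin r → ℝ), (algebraicNames (K S b) T y).ncard ≤ r) ∧
        ∀ w : ℕ, (zetaNames (K S b) T w).ncard ≤ 1) ∧
    (∀ x : ℚ, 0 < x → R 3 x = 1 / 12 *
      ∫ t in rest 3 x, Real.log (t 0 * t 1 / t 2 ^ 2) ^ 3 * Real.exp (-(t 0 + t 1 + t 2))) ∧
    (∀ (S : Set ℕ) (b d m k : ℕ), 2 ≤ d → 1 ≤ m → d ^ m = b ^ k → ∀ x C : ℝ,
      (∀ m ∈ S, (blocks (digit d x) m : ℝ) ≤ C * m) → x ∈ K S b) := by
  refine ⟨fun S hS T hT => ?_, fun x hx => three hx, fun S b d m k hd hm h x C hC => ?_⟩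
  · obtain ⟨k, c, hk, hc, hi, h⟩ := Pool.Agent.Run7.h123.LC.zeta_bases hS T hT
      (fun b => Subfield.closure (Series S b)) (fun b _ => le_rfl)
    refine ⟨k, c, hk, hc, hi, fun b hb hbi => ?_⟩
    have h1 : AlgebraicIndependent (K S b) (differences T) := by
      have h2 := h b hb hbi
      have h3 : (fun o : Option T => o.elim (Real.exp 1)
          (fun p => Pool.Agent.R352.Q.Zk p.1.1 p.1.2)) = differences T := by
        funext o
        cases o with
        | none => rfl
        | some p => exact (diff_eq (hT p.1 p.2).1 (hT p.1 p.2).2).symm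
      rw [h3] at h2
      exact h2
    exact ⟨h1, fun r y => count_names h1 y, fun w => count_zeta h1 w⟩
  · have hb0 : (d : ℚ) ≠ 0 := by
      have : d ≠ 0 := by omega
      exact_mod_cast this
    have hu : ∃ u ∈ group b, (u : ℚ) = d := by
      refine ⟨Units.mk0 (d : ℚ) hb0, mem_group.2 ⟨?_, m, (k : ℤ), hm, ?_⟩, rfl⟩
      · rw [Units.val_mk0]
        positivity
      · rw [Units.val_mk0, zpow_natCast]
        exact_mod_cast h
    have h1 : x ∈ Subfield.closure (Series S b) :=
      Pool.Agent.Run7.h123.LC.digits_mem hd hu hC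
    exact Pool.Agent.Run7.h123.LC.le_RC _ h1

end Pool.Agent.Results.MP_48b3e2_nt.ZetaThreeOverSimpleFields
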